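import Pool.Agent.Q260.KK.Spec

/-!
# Project KK of helper260, job LOC: local behaviour near the isolated zeros
-/

set_option autoImplicit false
set_option linter.all false

namespace Pool.Agent.Q150.KK

open MeasureTheory Filter Topology Set Complex
open Pool.Agent.Q260.KK

/-- `a` is close to `1` -/
def Cl (a : ℂ) (t : ℝ) : Prop := ‖a - 1‖ ≤ Real.exp t - 1

theorem Cl.mono {a : ℂ} {t s : ℝ} (h : Cl a t) (hts : t ≤ s) : Cl a s := by
  unfold Cl at *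
  have := Real.exp_le_exp.2 hts
  linarith

theorem Cl.mul {a b : ℂ} {t s : ℝ} (h : Cl a t) (h' : Cl b s) : Cl (a * b) (t + s) := by
  unfold Cl at *
  have e : a * b - 1 = (a - 1) * (b - 1) + (a - 1) + (b - 1) := by ring
  rw [e, Real.exp_add]
  have h1 : ‖(a - 1) * (b - 1)‖ ≤ (Real.exp t - 1) * (Real.exp s - 1) := by
    rw [norm_mul]
    exact mul_le_mul h h' (norm_nonneg _) ((norm_nonneg _).trans h)
  have h2 := norm_add_le ((a - 1) * (b - 1) + (a - 1)) (b - 1)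
  have h3 := norm_add_le ((a - 1) * (b - 1)) (a - 1)
  nlinarith

theorem Cl.one : Cl 1 0 := by
  unfold Cl
  rw [sub_self, norm_zero, Real.exp_zero, sub_self]

theorem Cl.pow {a : ℂ} {t : ℝ} (h : Cl a t) (n : ℕ) : Cl (a ^ n) (n * t) := by
  induction n with
  | zero =>
    rw [pow_zero, Nat.cast_zero, zero_mul]
    exact Cl.one
  | succ n ih =>
    rw [pow_succ]
    refine (ih.mul h).mono (le_of_eq ?_)
    push_cast
    ring

theorem Cl.add {v : ℂ} {t : ℝ} (h : ‖v‖ ≤ t) : Cl (1 + v) t := by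
  unfold Cl
  rw [add_sub_cancel_left]
  have := Real.add_one_le_exp t
  linarith

theorem Cl.sub {v : ℂ} {t : ℝ} (h : ‖v‖ ≤ t) : Cl (1 - v) t := by
  rw [sub_eq_add_neg]
  exact Cl.add (by rwa [norm_neg])

theorem Cl.prod {a : ℕ → ℂ} {t : ℕ → ℝ} (h : ∀ n, Cl (a n) (t n)) (N : ℕ) :
    Cl (∏ n ∈ Finset.range N, a n) (∑ n ∈ Finset.range N, t n) := by
  induction N with
  | zero =>
    rw [Finset.prod_range_zero, Finset.sum_range_zero]
    exact Cl.one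
  | succ n ih =>
    rw [Finset.prod_range_succ, Finset.sum_range_succ]
    exact ih.mul (h n)

/-- bound of a quotient -/
theorem nb {z : ℂ} {c D B : ℝ} (hD : 0 < |D|) (hB : 0 ≤ B) (h1 : 2 * |c| ≤ B * |D|) (h2 : 1 ≤ B * |D|) :
    ‖(2 * (c : ℂ) * z + z ^ 2) / (D : ℂ)‖ ≤ B * (‖z‖ + ‖z‖ ^ 2) := by
  rw [norm_div, Complex.norm_real, Real.norm_eq_abs, div_le_iff₀ hD]
  have h3 : ‖2 * (c : ℂ) * z + z ^ 2‖ ≤ 2 * |c| * ‖z‖ + ‖z‖ ^ 2 := by
    refine (norm_add_le _ _).trans (le_of_eq ?_)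
    rw [norm_mul, norm_mul, Complex.norm_real, Real.norm_eq_abs, norm_pow]
    norm_num
  refine h3.trans ?_
  have h4 := mul_le_mul_of_nonneg_right h1 (norm_nonneg z)
  have h5 := mul_le_mul_of_nonneg_right h2 (sq_nonneg ‖z‖)
  nlinarith

/-! ### numbers -/

theorem rn_succ (n : ℕ) : rn (n + 1) = xn n ^ 2 := by
  unfold xn rn
  rw [← pow_mul, ← pow_mul]
  congr 1

theorem rn_ge (n : ℕ) : 16 ^ (n + 1) ≤ rn n := by
  unfold rn
  have h : n + 1 ≤ 4 ^ n := by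
    have := Nat.lt_pow_self (n := n) (show 1 < 4 by norm_num)
    omega
  calc 16 ^ (n + 1) = 2 ^ (4 * (n + 1)) := by rw [pow_mul]; norm_num
    _ ≤ 2 ^ (4 ^ (n + 1)) := Nat.pow_le_pow_right (by norm_num) (by rw [pow_succ 4 n, mul_comm]; exact Nat.mul_le_mul_right 4 h)

theorem rn_mono {n k : ℕ} (h : n ≤ k) : rn n ≤ rn k := by
  unfold rn
  exact Nat.pow_le_pow_right (by norm_num) (Nat.pow_le_pow_right (by norm_num) (by omega))

theorem xn_mono {n k : ℕ} (h : n ≤ k) : xn n ≤ xn k := Nat.pow_le_pow_left (rn_mono h) 2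

theorem rn_ge16 (n : ℕ) : 16 ≤ rn n := by
  refine le_trans ?_ (rn_ge n)
  calc 16 = 16 ^ 1 := (pow_one 16).symm
    _ ≤ 16 ^ (n + 1) := Nat.pow_le_pow_right (by norm_num) (by omega)

/-- the square root of `rn n` -/
def qn (n : ℕ) : ℕ := 2 ^ (2 * 4 ^ n)

theorem qn_sq (n : ℕ) : qn n ^ 2 = rn n := by
  unfold qn rn
  rw [← pow_mul]
  congr 1
  rw [pow_succ 4 n]
  ring

theorem qn_ge (n : ℕ) : 64 ^ n ≤ qn n := by
  unfold qn
  have h : 3 * n ≤ 4 ^ n := by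
    induction n with
    | zero => norm_num
    | succ n ih =>
      rw [pow_succ]
      have : 1 ≤ 4 ^ n := Nat.one_le_pow _ _ (by norm_num)
      omega
  calc 64 ^ n = 2 ^ (2 * (3 * n)) := by rw [← mul_assoc, pow_mul]; norm_num
    _ ≤ 2 ^ (2 * 4 ^ n) := Nat.pow_le_pow_right (by norm_num) (by omega)

theorem xn_le_qn {k n : ℕ} (h : k < n) : xn k ≤ qn n := by
  unfold xn qn rn
  rw [← pow_mul, mul_comm]
  exact Nat.pow_le_pow_right (by norm_num) (Nat.mul_le_mul_left 2 (Nat.pow_le_pow_right (by norm_num) (by omega)))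

theorem two_xn {n k : ℕ} (h : n < k) : 2 * xn n ≤ xn k := by
  have h1 : rn (n + 1) ≤ rn k := rn_mono h
  rw [rn_succ] at h1
  have h2 : xn k = rn k ^ 2 := rfl
  have h3 : 16 ≤ xn n := (rn_ge16 n).trans (Nat.le_self_pow two_ne_zero _)
  have h4 : xn n ^ 2 ≤ rn k ^ 2 := (h1).trans (Nat.le_self_pow two_ne_zero _)
  nlinarith

theorem succ_le_two (n : ℕ) : n + 1 ≤ 2 ^ n := Nat.lt_pow_self (by norm_num)

/-- the bound for `n ≤ k` -/
theorem bd1 {n k : ℕ} (h : n ≤ k) : (mn n : ℝ) * (4 / xn k) + 6 / xn k ≤ (1 / 2) ^ k * (1 / 2) ^ n := by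
  have hr0 : (0 : ℝ) < rn k := by
    have := rn_ge16 k
    exact_mod_cast (by omega : 0 < rn k)
  have hx : (xn k : ℝ) = (rn k : ℝ) ^ 2 := by
    unfold xn
    push_cast
    rfl
  have hm : (mn n : ℝ) ≤ (k + 1) * rn k := by
    unfold mn
    push_cast
    have h1 : (n : ℝ) + 1 ≤ k + 1 := by exact_mod_cast Nat.succ_le_succ h
    have h2 : (rn n : ℝ) ≤ rn k := by exact_mod_cast rn_mono h
    exact mul_le_mul h1 h2 (Nat.cast_nonneg _) (by positivity)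
  have h16 : (16 : ℝ) ^ (k + 1) ≤ rn k := by exact_mod_cast rn_ge k
  have hk2 : (k : ℝ) + 1 ≤ 2 ^ k := by exact_mod_cast succ_le_two k
  have h3 : (mn n : ℝ) * (4 / xn k) + 6 / xn k ≤ 10 * (k + 1) / rn k := by
    rw [hx]
    have e1 : (mn n : ℝ) * (4 / (rn k : ℝ) ^ 2) ≤ (k + 1) * rn k * (4 / (rn k : ℝ) ^ 2) := by gcongr
    have e2 : ((k : ℝ) + 1) * rn k * (4 / (rn k : ℝ) ^ 2) = 4 * (k + 1) / rn k := by
      field_simp
    have e3 : 6 / (rn k : ℝ) ^ 2 ≤ 6 * (k + 1) / rn k := by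
      rw [div_le_div_iff₀ (by positivity) hr0]
      have h5 : (1 : ℝ) ≤ rn k := by
        have := rn_ge16 k
        exact_mod_cast (by omega : 1 ≤ rn k)
      have h6 : (1 : ℝ) ≤ (k + 1 : ℝ) * rn k := by
        have : (0 : ℝ) ≤ k := Nat.cast_nonneg _
        nlinarith
      nlinarith
    have e4 : 4 * ((k : ℝ) + 1) / rn k + 6 * (k + 1) / rn k = 10 * (k + 1) / rn k := by ring
    linarith
  refine h3.trans ?_
  rw [div_le_iff₀ hr0]
  have h7 : (1 / 2 : ℝ) ^ k * (1 / 2) ^ k ≤ (1 / 2) ^ k * (1 / 2) ^ n := by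
    refine mul_le_mul_of_nonneg_left ?_ (by positivity)
    exact pow_le_pow_of_le_one (by norm_num) (by norm_num) h
  have h8 : (1 / 2 : ℝ) ^ k * (1 / 2) ^ k * 16 ^ (k + 1) = 16 * 4 ^ k := by
    rw [pow_succ, ← mul_assoc, ← mul_pow, ← mul_pow, mul_comm]
    norm_num
  have h9 : (2 : ℝ) ^ k ≤ 4 ^ k := pow_le_pow_left₀ (by norm_num) (by norm_num) k
  calc 10 * ((k : ℝ) + 1) ≤ 16 * 4 ^ k := by
        have : (0 : ℝ) ≤ 4 ^ k := by positivity
        linarith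
    _ = (1 / 2 : ℝ) ^ k * (1 / 2) ^ k * 16 ^ (k + 1) := h8.symm
    _ ≤ (1 / 2) ^ k * (1 / 2) ^ n * rn k := by
        apply mul_le_mul h7 h16 (by positivity) (by positivity)

/-- the bound for `n > k` -/
theorem bd2 {n k : ℕ} (h : k < n) : (mn n : ℝ) * (4 * xn k / (rn n : ℝ) ^ 2) + 6 / xn n ≤ (1 / 2) ^ k * (1 / 2) ^ n := by
  have hq0 : (0 : ℝ) < qn n := by
    have h1 : 0 < qn n := by unfold qn; positivity
    exact_mod_cast h1
  have hr : (rn n : ℝ) = (qn n : ℝ) ^ 2 := by exact_mod_cast (qn_sq n).symm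
  have hx : (xn n : ℝ) = (rn n : ℝ) ^ 2 := by
    unfold xn
    push_cast
    rfl
  have hxq : (xn k : ℝ) ≤ qn n := by exact_mod_cast xn_le_qn h
  have h64 : (64 : ℝ) ^ n ≤ qn n := by exact_mod_cast qn_ge n
  have hn2 : (n : ℝ) + 1 ≤ 2 ^ n := by exact_mod_cast succ_le_two n
  have hq1 : (1 : ℝ) ≤ qn n := le_trans (one_le_pow₀ (by norm_num)) h64
  have h3 : (mn n : ℝ) * (4 * xn k / (rn n : ℝ) ^ 2) + 6 / xn n ≤ 10 * (n + 1) / qn n := by
    rw [hx]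
    unfold mn
    push_cast
    rw [hr]
    have e1 : ((n : ℝ) + 1) * (qn n : ℝ) ^ 2 * (4 * xn k / ((qn n : ℝ) ^ 2) ^ 2) ≤
        ((n : ℝ) + 1) * (qn n : ℝ) ^ 2 * (4 * qn n / ((qn n : ℝ) ^ 2) ^ 2) := by gcongr
    have e2 : ((n : ℝ) + 1) * (qn n : ℝ) ^ 2 * (4 * qn n / ((qn n : ℝ) ^ 2) ^ 2) = 4 * (n + 1) / qn n := by
      field_simp
    have e3 : 6 / ((qn n : ℝ) ^ 2) ^ 2 ≤ 6 * (n + 1) / qn n := by
      rw [div_le_div_iff₀ (by positivity) hq0]
      have h4 : (qn n : ℝ) ≤ ((qn n : ℝ) ^ 2) ^ 2 := by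
        rw [← pow_mul]
        exact le_self_pow₀ hq1 (by norm_num)
      have h5 : (0 : ℝ) ≤ n := Nat.cast_nonneg _
      nlinarith
    have e4 : 4 * ((n : ℝ) + 1) / qn n + 6 * (n + 1) / qn n = 10 * (n + 1) / qn n := by ring
    linarith
  refine h3.trans ?_
  rw [div_le_iff₀ hq0]
  have h7 : (1 / 2 : ℝ) ^ n * (1 / 2) ^ n * 2 ≤ (1 / 2) ^ k * (1 / 2) ^ n := by
    have h8 : (1 / 2 : ℝ) ^ n ≤ (1 / 2) ^ (k + 1) := pow_le_pow_of_le_one (by norm_num) (by norm_num) h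
    rw [pow_succ] at h8
    have h9 : (0 : ℝ) < (1 / 2) ^ n := by positivity
    nlinarith
  have h8 : (1 / 2 : ℝ) ^ n * (1 / 2) ^ n * 2 * 64 ^ n = 2 * 16 ^ n := by
    have : (1 / 2 : ℝ) ^ n * (1 / 2) ^ n * 2 * 64 ^ n = 2 * ((1 / 2) ^ n * (1 / 2) ^ n * 64 ^ n) := by ring
    rw [this, ← mul_pow, ← mul_pow]
    norm_num
  have h9 : 10 * (2 : ℝ) ^ n ≤ 2 * 16 ^ n := by
    have h10 : (16 : ℝ) ^ n = 8 ^ n * 2 ^ n := by rw [← mul_pow]; norm_num
    have h11 : (8 : ℝ) ^ 1 ≤ 8 ^ n := pow_le_pow_right₀ (by norm_num) (by omega)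
    rw [h10]
    have : (0 : ℝ) < 2 ^ n := by positivity
    nlinarith
  calc 10 * ((n : ℝ) + 1) ≤ 2 * 16 ^ n := by linarith
    _ = (1 / 2 : ℝ) ^ n * (1 / 2) ^ n * 2 * 64 ^ n := h8.symm
    _ ≤ (1 / 2) ^ k * (1 / 2) ^ n * qn n := by
        apply mul_le_mul h7 h64 (by positivity) (by positivity)

/-! ### the factors -/

/-- the local factor -/
noncomputable def rh (k n : ℕ) (z : ℂ) : ℂ :=
  (1 - (2 * ((xn k : ℝ) : ℂ) * z + z ^ 2) / (((rn n : ℝ) ^ 2 - (xn k : ℝ) ^ 2 : ℝ) : ℂ)) ^ (mn n) *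
  ((if n = k then 1 else 1 + (2 * ((xn k - xn n : ℝ) : ℂ) * z + z ^ 2) / (((xn k - xn n : ℝ) ^ 2 + 4 : ℝ) : ℂ)) *
  (1 + (2 * ((xn k + xn n : ℝ) : ℂ) * z + z ^ 2) / (((xn k + xn n : ℝ) ^ 2 + 4 : ℝ) : ℂ)))

theorem xn_pos (n : ℕ) : (256 : ℝ) ≤ xn n := by
  have h : 256 ≤ xn n := by
    unfold xn
    have := Nat.pow_le_pow_left (rn_ge16 n) 2
    exact this
  exact_mod_cast h

/-- the denominators of the powers -/
theorem den1 {n k : ℕ} (h : n ≤ k) : (xn k : ℝ) ^ 2 / 2 ≤ |(rn n : ℝ) ^ 2 - (xn k : ℝ) ^ 2| := by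
  have h1 : (rn n : ℝ) ^ 2 ≤ xn k := by
    have h2 : xn n ≤ xn k := xn_mono h
    unfold xn at h2 ⊢
    exact_mod_cast h2
  have h3 := xn_pos k
  rw [abs_of_neg (by nlinarith)]
  nlinarith

theorem den2 {n k : ℕ} (h : k < n) : (rn n : ℝ) ^ 2 / 2 ≤ |(rn n : ℝ) ^ 2 - (xn k : ℝ) ^ 2| := by
  have h1 : (xn k : ℝ) ^ 2 ≤ rn n := by
    have h2 : rn (k + 1) ≤ rn n := rn_mono h
    rw [rn_succ] at h2
    exact_mod_cast h2
  have h3 : (16 : ℝ) ≤ rn n := by exact_mod_cast rn_ge16 n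
  rw [abs_of_pos (by nlinarith)]
  nlinarith

theorem den_ne (n k : ℕ) : (rn n : ℝ) ^ 2 - (xn k : ℝ) ^ 2 ≠ 0 := by
  intro h
  have h3 := xn_pos k
  have h4 : (16 : ℝ) ≤ rn n := by exact_mod_cast rn_ge16 n
  rcases Nat.lt_or_ge k n with h1 | h1
  · have := den2 h1
    rw [h, abs_zero] at this
    nlinarith
  · have := den1 h1
    rw [h, abs_zero] at this
    nlinarith

/-- closeness of the quadratic factor -/
theorem quad {z : ℂ} {c B : ℝ} (hc : 1 ≤ |c|) (h : 2 ≤ B * |c|) :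
    Cl (1 + (2 * (c : ℂ) * z + z ^ 2) / ((c ^ 2 + 4 : ℝ) : ℂ)) (B * (‖z‖ + ‖z‖ ^ 2)) := by
  have hB : 0 ≤ B := by
    by_contra hcon
    push Not at hcon
    nlinarith
  have h0 : (0 : ℝ) < c ^ 2 + 4 := by positivity
  have h1 : |c| ^ 2 = c ^ 2 := sq_abs c
  refine Cl.add (nb ?_ hB ?_ ?_)
  · rw [abs_of_pos h0]
    exact h0
  · rw [abs_of_pos h0, ← h1]
    nlinarith [mul_le_mul_of_nonneg_right h (abs_nonneg c)]
  · rw [abs_of_pos h0, ← h1]
    nlinarith [mul_le_mul_of_nonneg_right h (abs_nonneg c)]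

/-- all the local factors are close to `1` -/
theorem rh_close (k n : ℕ) (z : ℂ) : Cl (rh k n z) ((1 / 2) ^ k * (1 / 2) ^ n * (‖z‖ + ‖z‖ ^ 2)) := by
  have hx := xn_pos k
  have hxn := xn_pos n
  have hr : (16 : ℝ) ≤ rn n := by exact_mod_cast rn_ge16 n
  have hs : 0 ≤ ‖z‖ + ‖z‖ ^ 2 := by positivity
  -- the power
  have hpow : ∀ B : ℝ, 0 ≤ B → 2 * |(xn k : ℝ)| ≤ B * |(rn n : ℝ) ^ 2 - (xn k : ℝ) ^ 2| →
      1 ≤ B * |(rn n : ℝ) ^ 2 - (xn k : ℝ) ^ 2| →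
      Cl ((1 - (2 * ((xn k : ℝ) : ℂ) * z + z ^ 2) / (((rn n : ℝ) ^ 2 - (xn k : ℝ) ^ 2 : ℝ) : ℂ)) ^ (mn n))
        (mn n * (B * (‖z‖ + ‖z‖ ^ 2))) := by
    intro B hB h1 h2
    exact (Cl.sub (nb (abs_pos.2 (den_ne n k)) hB h1 h2)).pow _
  have hc2 : ∀ M : ℝ, 0 < M → M ≤ xn k + xn n → Cl (1 + (2 * ((xn k + xn n : ℝ) : ℂ) * z + z ^ 2) /
      (((xn k + xn n : ℝ) ^ 2 + 4 : ℝ) : ℂ)) (2 / M * (‖z‖ + ‖z‖ ^ 2)) := by
    intro M hM hM2
    refine quad ?_ ?_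
    · rw [abs_of_pos (by linarith)]
      linarith
    · rw [abs_of_pos (by linarith), div_mul_eq_mul_div, le_div_iff₀ hM]
      linarith
  rcases Nat.lt_or_ge k n with h | h
  · -- n > k
    have hkn : (2 : ℝ) * xn k ≤ xn n := by exact_mod_cast two_xn h
    have e1 := hpow (4 * xn k / (rn n : ℝ) ^ 2) (by positivity) (by
      rw [abs_of_pos (by linarith : (0 : ℝ) < xn k)]
      have := den2 h
      calc 2 * (xn k : ℝ) = 4 * xn k / (rn n : ℝ) ^ 2 * ((rn n : ℝ) ^ 2 / 2) := by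
            field_simp
            ring
        _ ≤ _ := by gcongr) (by
      have := den2 h
      calc (1 : ℝ) ≤ 2 * (xn k : ℝ) := by linarith
        _ = 4 * xn k / (rn n : ℝ) ^ 2 * ((rn n : ℝ) ^ 2 / 2) := by
            field_simp
            ring
        _ ≤ _ := by gcongr)
    have e2 : Cl (1 + (2 * ((xn k - xn n : ℝ) : ℂ) * z + z ^ 2) / (((xn k - xn n : ℝ) ^ 2 + 4 : ℝ) : ℂ))
        (4 / xn n * (‖z‖ + ‖z‖ ^ 2)) := by
      have h5 : (xn n : ℝ) / 2 ≤ |(xn k : ℝ) - xn n| := by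
        rw [abs_of_neg (by linarith)]
        linarith
      refine quad (by linarith) ?_
      rw [div_mul_eq_mul_div, le_div_iff₀ (by linarith)]
      linarith
    have e3 := hc2 (xn n) (by linarith) (by linarith)
    unfold rh
    rw [if_neg (by omega : n ≠ k)]
    refine (e1.mul (e2.mul e3)).mono ?_
    have h6 := mul_le_mul_of_nonneg_right (bd2 h) hs
    refine le_trans (le_of_eq ?_) h6
    ring
  · -- n ≤ k
    have e1 := hpow (4 / xn k) (by positivity) (by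
      rw [abs_of_pos (by linarith : (0 : ℝ) < xn k)]
      have := den1 h
      calc 2 * (xn k : ℝ) = 4 / xn k * ((xn k : ℝ) ^ 2 / 2) := by
            field_simp
            ring
        _ ≤ _ := by gcongr) (by
      have := den1 h
      calc (1 : ℝ) ≤ 2 * (xn k : ℝ) := by linarith
        _ = 4 / xn k * ((xn k : ℝ) ^ 2 / 2) := by
            field_simp
            ring
        _ ≤ _ := by gcongr)
    have e3 := hc2 (xn k) (by linarith) (by linarith)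
    have e2 : Cl (if n = k then (1 : ℂ) else 1 + (2 * ((xn k - xn n : ℝ) : ℂ) * z + z ^ 2) /
        (((xn k - xn n : ℝ) ^ 2 + 4 : ℝ) : ℂ)) (4 / xn k * (‖z‖ + ‖z‖ ^ 2)) := by
      split_ifs with hnk
      · exact Cl.one.mono (by positivity)
      · have hkn : (2 : ℝ) * xn n ≤ xn k := by exact_mod_cast two_xn (lt_of_le_of_ne h hnk)
        have h5 : (xn k : ℝ) / 2 ≤ |(xn k : ℝ) - xn n| := by
          rw [abs_of_pos (by linarith)]
          linarith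
        refine quad (by linarith) ?_
        rw [div_mul_eq_mul_div, le_div_iff₀ (by linarith)]
        linarith
    unfold rh
    refine (e1.mul (e2.mul e3)).mono ?_
    have h6 := mul_le_mul_of_nonneg_right (bd1 h) hs
    refine le_trans (le_of_eq ?_) h6
    ring

/-- factorisation of the factors -/
theorem fac_shift (k n : ℕ) (z : ℂ) :
    fac n (xn k + z) = fac n (xn k) * (if n = k then (z ^ 2 + 4) / 4 else 1) * rh k n z := by
  have hr : (rn n : ℂ) ≠ 0 := by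
    have := rn_ge16 n
    exact_mod_cast (by omega : rn n ≠ 0)
  have hd : ((rn n : ℂ) ^ 2 - (xn k : ℂ) ^ 2) ≠ 0 := by
    have := den_ne n k
    have h2 : (((rn n : ℝ) ^ 2 - (xn k : ℝ) ^ 2 : ℝ) : ℂ) ≠ 0 := by exact_mod_cast this
    push_cast at h2
    exact h2
  have h4 : ∀ c : ℝ, ((c : ℂ) ^ 2 + 4) ≠ 0 := by
    intro c
    have : (0 : ℝ) < c ^ 2 + 4 := by positivity
    have h2 : ((c ^ 2 + 4 : ℝ) : ℂ) ≠ 0 := by exact_mod_cast this.ne'
    push_cast at h2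
    exact h2
  have hx : ((xn n : ℂ) ^ 2 + 4) ≠ 0 := by
    have := h4 (xn n)
    push_cast at this
    exact this
  have ha : (((xn k : ℂ) - xn n) ^ 2 + 4) ≠ 0 := by
    have := h4 (xn k - xn n)
    push_cast at this
    exact this
  have hb : (((xn k : ℂ) + xn n) ^ 2 + 4) ≠ 0 := by
    have := h4 (xn k + xn n)
    push_cast at this
    exact this
  have e1 : (1 - ((xn k : ℂ) + z) ^ 2 / (rn n : ℂ) ^ 2) = (1 - (xn k : ℂ) ^ 2 / (rn n : ℂ) ^ 2) *
      (1 - (2 * ((xn k : ℝ) : ℂ) * z + z ^ 2) / (((rn n : ℝ) ^ 2 - (xn k : ℝ) ^ 2 : ℝ) : ℂ)) := by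
    push_cast
    field_simp
    ring
  have e3 : (((xn k : ℂ) + z + xn n) ^ 2 + 4) = (((xn k : ℂ) + xn n) ^ 2 + 4) *
      (1 + (2 * ((xn k + xn n : ℝ) : ℂ) * z + z ^ 2) / (((xn k + xn n : ℝ) ^ 2 + 4 : ℝ) : ℂ)) := by
    push_cast
    field_simp
    ring
  have e2 : (((xn k : ℂ) + z - xn n) ^ 2 + 4) = (((xn k : ℂ) - xn n) ^ 2 + 4) *
      (if n = k then (z ^ 2 + 4) / 4 else 1) *
      (if n = k then 1 else 1 + (2 * ((xn k - xn n : ℝ) : ℂ) * z + z ^ 2) / (((xn k - xn n : ℝ) ^ 2 + 4 : ℝ) : ℂ)) := by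
    split_ifs with h
    · subst h
      ring
    · push_cast
      field_simp
      ring
  unfold fac qf rh
  rw [e1, e2, e3, mul_pow]
  ring

theorem fac_ne (k n : ℕ) : fac n (xn k) ≠ 0 := by
  have hr : (rn n : ℂ) ≠ 0 := by
    have := rn_ge16 n
    exact_mod_cast (by omega : rn n ≠ 0)
  have hd : ((rn n : ℂ) ^ 2 - (xn k : ℂ) ^ 2) ≠ 0 := by
    have := den_ne n k
    have h2 : (((rn n : ℝ) ^ 2 - (xn k : ℝ) ^ 2 : ℝ) : ℂ) ≠ 0 := by exact_mod_cast this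
    push_cast at h2
    exact h2
  have h4 : ∀ c : ℝ, ((c : ℂ) ^ 2 + 4) ≠ 0 := by
    intro c
    have : (0 : ℝ) < c ^ 2 + 4 := by positivity
    have h2 : ((c ^ 2 + 4 : ℝ) : ℂ) ≠ 0 := by exact_mod_cast this.ne'
    push_cast at h2
    exact h2
  have hx : ((xn n : ℂ) ^ 2 + 4) ≠ 0 := by
    have := h4 (xn n)
    push_cast at this
    exact this
  have ha : (((xn k : ℂ) - xn n) ^ 2 + 4) ≠ 0 := by
    have := h4 (xn k - xn n)
    push_cast at this
    exact this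
  have hb : (((xn k : ℂ) + xn n) ^ 2 + 4) ≠ 0 := by
    have := h4 (xn k + xn n)
    push_cast at this
    exact this
  unfold fac qf
  refine mul_ne_zero (pow_ne_zero _ ?_) (div_ne_zero (mul_ne_zero ha hb) (pow_ne_zero _ hx))
  have e : (1 - (xn k : ℂ) ^ 2 / (rn n : ℂ) ^ 2) = ((rn n : ℂ) ^ 2 - (xn k : ℂ) ^ 2) / (rn n : ℂ) ^ 2 := by
    field_simp
  rw [e]
  exact div_ne_zero hd (pow_ne_zero _ hr)

/-- the factors themselves are close to `1` -/
theorem fac_close (n : ℕ) (z : ℂ) : Cl (fac n z) ((1 / 2) ^ n * (‖z‖ + ‖z‖ ^ 2)) := by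
  have hxn := xn_pos n
  have hr : (16 : ℝ) ≤ rn n := by exact_mod_cast rn_ge16 n
  have hs : 0 ≤ ‖z‖ + ‖z‖ ^ 2 := by positivity
  have hr' : (rn n : ℂ) ≠ 0 := by
    have := rn_ge16 n
    exact_mod_cast (by omega : rn n ≠ 0)
  have hx : (((-(xn n) : ℝ) ^ 2 + 4 : ℝ) : ℂ) = (xn n : ℂ) ^ 2 + 4 := by
    push_cast
    ring
  have hx' : (((xn n : ℝ) ^ 2 + 4 : ℝ) : ℂ) = (xn n : ℂ) ^ 2 + 4 := by
    push_cast
    ring
  have hx0 : ((xn n : ℂ) ^ 2 + 4) ≠ 0 := by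
    rw [← hx']
    have : (0 : ℝ) < (xn n : ℝ) ^ 2 + 4 := by positivity
    exact_mod_cast this.ne'
  have c1 : Cl ((1 - z ^ 2 / (rn n : ℂ) ^ 2) ^ (mn n)) (mn n * (1 / (rn n : ℝ) ^ 2 * (‖z‖ + ‖z‖ ^ 2))) := by
    refine (Cl.sub ?_).pow _
    rw [norm_div, norm_pow, norm_pow, Complex.norm_natCast, div_eq_mul_inv, mul_comm, one_div]
    refine mul_le_mul_of_nonneg_left ?_ (by positivity)
    linarith [norm_nonneg z]
  have c2 := quad (z := z) (c := -(xn n : ℝ)) (B := 2 / xn n) (by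
    rw [abs_neg, abs_of_pos (by linarith)]
    linarith) (by
    rw [abs_neg, abs_of_pos (by linarith), div_mul_cancel₀ _ (by linarith)])
  have c3 := quad (z := z) (c := (xn n : ℝ)) (B := 2 / xn n) (by
    rw [abs_of_pos (by linarith)]
    linarith) (by
    rw [abs_of_pos (by linarith), div_mul_cancel₀ _ (by linarith)])
  rw [hx] at c2
  rw [hx'] at c3
  have e : fac n z = (1 - z ^ 2 / (rn n : ℂ) ^ 2) ^ (mn n) *
      ((1 + (2 * ((-(xn n : ℝ) : ℝ) : ℂ) * z + z ^ 2) / ((xn n : ℂ) ^ 2 + 4)) *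
      (1 + (2 * ((xn n : ℝ) : ℂ) * z + z ^ 2) / ((xn n : ℂ) ^ 2 + 4))) := by
    unfold fac qf
    congr 1
    push_cast
    field_simp
    ring
  rw [e]
  refine (c1.mul (c2.mul c3)).mono ?_
  have hk2 : (n : ℝ) + 1 ≤ 2 ^ n := by exact_mod_cast succ_le_two n
  have h16 : (16 : ℝ) ^ (n + 1) ≤ rn n := by exact_mod_cast rn_ge n
  have hxr : (xn n : ℝ) = (rn n : ℝ) ^ 2 := by
    unfold xn
    push_cast
    rfl
  have h5 : (mn n : ℝ) * (1 / (rn n : ℝ) ^ 2) + 2 / xn n + 2 / xn n ≤ (1 / 2) ^ n := by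
    have h6 : (mn n : ℝ) * (1 / (rn n : ℝ) ^ 2) = (n + 1) / rn n := by
      unfold mn
      push_cast
      field_simp
    have h7 : 2 / (xn n : ℝ) ≤ 2 * (n + 1) / rn n := by
      rw [hxr, div_le_div_iff₀ (by positivity) (by linarith)]
      have : (0 : ℝ) ≤ n := Nat.cast_nonneg _
      have h9 : (1 : ℝ) * rn n ≤ (n + 1) * (rn n : ℝ) ^ 2 := by
        apply mul_le_mul (by linarith) (by nlinarith) (by linarith) (by linarith)
      linarith
    have h8 : ((n : ℝ) + 1) / rn n + 2 * (n + 1) / rn n + 2 * (n + 1) / rn n ≤ (1 / 2) ^ n := by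
      rw [← add_div, ← add_div, div_le_iff₀ (by linarith)]
      have h9 : (1 / 2 : ℝ) ^ n * 16 ^ (n + 1) = 16 * 8 ^ n := by
        rw [pow_succ, ← mul_assoc, ← mul_pow, mul_comm]
        norm_num
      have h10 : (2 : ℝ) ^ n ≤ 8 ^ n := pow_le_pow_left₀ (by norm_num) (by norm_num) n
      calc (n : ℝ) + 1 + 2 * (n + 1) + 2 * (n + 1) ≤ 16 * 8 ^ n := by
            have : (0 : ℝ) ≤ 8 ^ n := by positivity
            linarith
        _ = (1 / 2 : ℝ) ^ n * 16 ^ (n + 1) := h9.symm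
        _ ≤ (1 / 2) ^ n * rn n := by gcongr
    linarith
  have h6 := mul_le_mul_of_nonneg_right h5 hs
  refine le_trans (le_of_eq ?_) h6
  ring

theorem fac_summable (z : ℂ) : Summable fun n => ‖fac n z - 1‖ := by
  have hs : 0 ≤ ‖z‖ + ‖z‖ ^ 2 := by positivity
  have hg : Summable fun n : ℕ => (1 / 2 : ℝ) ^ n * ((‖z‖ + ‖z‖ ^ 2) * Real.exp (‖z‖ + ‖z‖ ^ 2)) :=
    (summable_geometric_of_lt_one (by norm_num) (by norm_num)).mul_right _
  refine Summable.of_nonneg_of_le (fun _ => norm_nonneg _) (fun n => ?_) hg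
  refine (fac_close n z).trans ?_
  have h1 : (1 / 2 : ℝ) ^ n ≤ 1 := pow_le_one₀ (by norm_num) (by norm_num)
  have h0 : (0 : ℝ) < (1 / 2) ^ n := by positivity
  obtain ⟨u, hu⟩ : ∃ u : ℝ, u = (1 / 2 : ℝ) ^ n * (‖z‖ + ‖z‖ ^ 2) := ⟨_, rfl⟩
  have hu0 : 0 ≤ u := by rw [hu]; positivity
  have hu1 : u ≤ ‖z‖ + ‖z‖ ^ 2 := by
    rw [hu]
    exact mul_le_of_le_one_left hs h1
  rw [← hu]
  have h2 : Real.exp u - 1 ≤ u * Real.exp u := by
    have h3 := Real.add_one_le_exp (-u)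
    have h4 : Real.exp u * Real.exp (-u) = 1 := by
      rw [← Real.exp_add, add_neg_cancel, Real.exp_zero]
    have h5 := Real.exp_pos u
    nlinarith
  refine h2.trans ?_
  have h3 : Real.exp u ≤ Real.exp (‖z‖ + ‖z‖ ^ 2) := Real.exp_le_exp.2 hu1
  calc u * Real.exp u ≤ u * Real.exp (‖z‖ + ‖z‖ ^ 2) := by gcongr
    _ = _ := by rw [hu]; ring

theorem fac_mult (z : ℂ) : Multipliable fun n => fac n z := by
  have h := multipliable_one_add_of_summable (f := fun n => fac n z - 1) (fac_summable z)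
  simpa using h

theorem fac_tendsto (z : ℂ) : Tendsto (fun N => ∏ n ∈ Finset.range N, fac n z) atTop (𝓝 (ff z)) :=
  (fac_mult z).hasProd.tendsto_prod_nat

theorem ff_ne (k : ℕ) : ff (xn k) ≠ 0 := by
  have h := tprod_one_add_ne_zero_of_summable (f := fun n => fac n (xn k) - 1)
    (fun n => by simpa using fac_ne k n) (fac_summable _)
  unfold ff
  simpa using h

theorem geo_le (N : ℕ) : ∑ n ∈ Finset.range N, (1 / 2 : ℝ) ^ n ≤ 2 := by
  have h := (summable_geometric_of_lt_one (r := (1 / 2 : ℝ)) (by norm_num) (by norm_num)).sum_le_tsum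
    (Finset.range N) fun n _ => by positivity
  rw [tsum_geometric_of_lt_one (by norm_num) (by norm_num)] at h
  norm_num at h ⊢
  exact h

/-- job LOC of project KK of helper260 -/
theorem t_LOC : S_LOC := by
  refine ⟨fun k => 2 * (1 / 2) ^ k, ?_, fun k => by positivity, fun k z => ⟨ff_ne k, ?_⟩⟩
  · have h := tendsto_pow_atTop_nhds_zero_of_lt_one (r := (1 / 2 : ℝ)) (by norm_num) (by norm_num)
    have h2 := h.const_mul 2
    rw [mul_zero] at h2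
    exact h2
  · have h1 := (fac_tendsto (xn k + z)).div (fac_tendsto (xn k)) (ff_ne k)
    have h2 := (h1.sub_const ((z ^ 2 + 4) / 4)).norm
    refine le_of_tendsto h2 ?_
    filter_upwards [eventually_gt_atTop k] with N hN
    have e1 : ∏ n ∈ Finset.range N, fac n (xn k + z) = (∏ n ∈ Finset.range N, fac n (xn k)) *
        ((z ^ 2 + 4) / 4) * ∏ n ∈ Finset.range N, rh k n z := by
      rw [Finset.prod_congr rfl fun n _ => fac_shift k n z, Finset.prod_mul_distrib, Finset.prod_mul_distrib,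
        Finset.prod_ite_eq' (Finset.range N) k (fun _ => (z ^ 2 + 4) / 4), if_pos (Finset.mem_range.2 hN)]
    have hne : ∏ n ∈ Finset.range N, fac n (xn k) ≠ 0 := Finset.prod_ne_zero_iff.2 fun n _ => fac_ne k n
    have e2 : (∏ n ∈ Finset.range N, fac n (xn k + z)) / (∏ n ∈ Finset.range N, fac n (xn k)) -
        (z ^ 2 + 4) / 4 = (z ^ 2 + 4) / 4 * ((∏ n ∈ Finset.range N, rh k n z) - 1) := by
      rw [e1]
      field_simp
    have h3 := Cl.prod (fun n => rh_close k n z) N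
    have h4 : ‖(∏ n ∈ Finset.range N, rh k n z) - 1‖ ≤ Real.exp (2 * (1 / 2) ^ k * (‖z‖ + ‖z‖ ^ 2)) - 1 := by
      refine h3.mono ?_
      rw [← Finset.sum_mul, ← Finset.mul_sum]
      refine mul_le_mul_of_nonneg_right ?_ (by positivity)
      have h5 := geo_le N
      have h6 : (0 : ℝ) < (1 / 2) ^ k := by positivity
      nlinarith
    have h5 : ‖(z ^ 2 + 4) / 4‖ ≤ (‖z‖ ^ 2 + 4) / 4 := by
      rw [norm_div]
      have h6 : ‖(4 : ℂ)‖ = 4 := by norm_num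
      rw [h6]
      have h7 : ‖z ^ 2 + 4‖ ≤ ‖z‖ ^ 2 + 4 := by
        refine (norm_add_le _ _).trans (le_of_eq ?_)
        rw [norm_pow, h6]
      linarith
    have h6 : ‖(∏ n ∈ Finset.range N, fac n (xn k + z)) / (∏ n ∈ Finset.range N, fac n (xn k)) -
        (z ^ 2 + 4) / 4‖ ≤ (‖z‖ ^ 2 + 4) / 4 * (Real.exp (2 * (1 / 2) ^ k * (‖z‖ + ‖z‖ ^ 2)) - 1) := by
      rw [e2, norm_mul]
      exact mul_le_mul h5 h4 (norm_nonneg _) (by positivity)
    exact h6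

end Pool.Agent.Q150.KK
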